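import Pool.Agent.Q269.DX.A87.NInvA

/-! # The bound for one coset -/

set_option autoImplicit false

namespace Pool.Agent.Q269.DX.A87

open Pool.Agent.Q269.DX.Bs (ze ze_add)

open Finset Module Pool.Agent.Q269.DX.JQ
open Pool.Agent.Q269.DX.Bs (prs)

open scoped Classical

section main

variable {s V U ι : Type} [Fintype s] [AddCommGroup V] [Module (ZMod 2) V]
  [Fintype U] [Fintype ι] [LinearOrder ι]

theorem chi_split (χ : ((s → V) × (U ⊕ ι → V)) →ₗ[ZMod 2] ZMod 2) (δ : s → V) (y : U → V)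
    (x : ι → V) : χ (δ, Sum.elim y x) = χ (δ, Sum.elim y 0) +
      ∑ i, χ (0, Pi.single (Sum.inr i) (x i)) := by
  rw [← map_sum, ← map_add]
  congr 1
  refine Prod.ext ?_ ?_
  · rw [Prod.fst_add, Prod.fst_sum]
    simp
  · rw [Prod.snd_add, Prod.snd_sum]
    funext q
    simp only [Pi.add_apply, Finset.sum_apply]
    rcases q with q | q
    · simp [Pi.single_apply]
    · simp [Pi.single_apply]

/-- the exponent -/
theorem expo (D : Dj s V) (b : Bk s U ι) (δ : s → V) (y : U → V) (x W : ι → V) :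
    ∑ i, D.ω (W i) (rowL D (b.N D.s₀ 0) b.h (δ, Sum.elim y x) (Sum.inr i)) =
      ∑ i, D.ω (W i) (∑ u, b.C i u • (y u + x i) + D.T (b.hJ i) (x i) + ∑ t, b.hJ i t • δ t) +
      ∑ i, ∑ j, (if j < i then ze (b.hJ i) D.s₀ * ze (b.hJ j) D.s₀ else 0) * D.ω (W i) (x j + x i) := by
  rw [← Finset.sum_add_distrib]
  refine Finset.sum_congr rfl fun i _ => ?_
  rw [row_inr, map_add, map_sum]
  simp only [map_smul, smul_eq_mul]

theorem sum_off (M : Finset ι) (g : ι → ZMod 2) (hg : ∀ i ∈ M, g i = 0) :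
    ∑ i, g i = ∑ i : {i // i ∉ M}, g i := by
  rw [← Finset.sum_add_sum_compl M g, Finset.sum_eq_zero hg, zero_add]
  exact Finset.sum_subtype _ (fun i => by simp) _

omit [Fintype s] [AddCommGroup V] [Module (ZMod 2) V] [Fintype U] [Fintype ι] [LinearOrder ι] in
theorem gs4 {L : Type} [AddCommGroup L] [Fintype L] (f : L → ZMod 2) (a b : L)
    (h : ∀ x, f x + f (x + a) + f (x + b) + f (x + a + b) = 1) :
    |∑ x, sg (f x)| ≤ (Fintype.card L : ℝ) / 2 := by
  have h1 : ∑ x, (sg (f x) + sg (f (x + a)) + sg (f (x + b)) + sg (f (x + a + b))) =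
      4 * ∑ x, sg (f x) := by
    have e : ∀ c : L, ∑ x, sg (f (x + c)) = ∑ x, sg (f x) := fun c =>
      Fintype.sum_equiv (Equiv.addRight c) _ _ fun x => rfl
    rw [Finset.sum_add_distrib, Finset.sum_add_distrib, Finset.sum_add_distrib, e a, e b]
    have e2 : ∑ x, sg (f (x + a + b)) = ∑ x, sg (f x) := by
      rw [← e (a + b)]
      refine Finset.sum_congr rfl fun x _ => ?_
      rw [add_assoc]
    rw [e2]
    ring
  have h2 : ∀ x, |sg (f x) + sg (f (x + a)) + sg (f (x + b)) + sg (f (x + a + b))| ≤ 2 := by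
    intro x
    have h3 := h x
    have h4 : ∀ p q r t : ZMod 2, p + q + r + t = 1 → |sg p + sg q + sg r + sg t| ≤ 2 := by
      intro p q r t
      have k : ∀ x : ZMod 2, x = 0 ∨ x = 1 := by decide
      have two : (1 : ZMod 2) + 1 = 0 := rfl
      rcases k p with rfl | rfl <;> rcases k q with rfl | rfl <;> rcases k r with rfl | rfl <;>
        rcases k t with rfl | rfl <;> intro h5 <;> first
          | (exfalso; revert h5; decide)
          | (simp only [sg_zero, sg_one]; norm_num)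
    exact h4 _ _ _ _ h3
  have h3 : |4 * ∑ x, sg (f x)| ≤ 2 * Fintype.card L := by
    rw [← h1]
    refine (Finset.abs_sum_le_sum_abs _ _).trans ?_
    have := Finset.sum_le_card_nsmul univ _ _ (fun x _ => h2 x)
    rw [Finset.card_univ, nsmul_eq_mul] at this
    linarith
  rw [abs_mul, abs_of_pos (by norm_num : (0 : ℝ) < 4)] at h3
  linarith

/-- the Gauss sum at one large prime -/
theorem gauss_one [Fintype V] (D : Dj s V) (hs : D.Sym)
    (nd : ∀ x, (∀ y, D.ω x y = 0) → x = 0)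
    (Λ : Submodule (ZMod 2) (V × V)) (hΛ : ∀ z ∈ Λ, D.ω z.2 z.1 = 0)
    (hc : Nat.card Λ = Nat.card V) (φ : s → ZMod 2) (hφ : ze φ D.s₀ = 0)
    (hex : ∃ z ∈ Λ, (D.T φ z.1, D.T φ z.2) ∉ Λ)
    (B : V →ₗ[ZMod 2] ZMod 2) (c : U → ZMod 2) (y : U → V) (z : V × V) (κ : V)
    (f : V × V → ZMod 2) (hf : ∀ l, f l = B (z.1 + l.1) +
        D.ω (z.2 + l.2) (∑ u, c u • (y u + (z.1 + l.1)) + D.T φ (z.1 + l.1) + κ)) :
    |∑ l : Λ, sg (f (l : V × V))| ≤ (Fintype.card Λ : ℝ) / 2 := by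
  obtain ⟨z₀, hz₀, hz₀'⟩ := hex
  obtain ⟨z₁, hz₁, hz₁'⟩ : ∃ z₁ ∈ Λ, pol D.ω z₁ (D.T φ z₀.1, D.T φ z₀.2) ≠ 0 := by
    by_contra hcon
    push Not at hcon
    exact hz₀' (pol_orth hs.alt nd hΛ hc hcon)
  have hz1 : pol D.ω z₁ (D.T φ z₀.1, D.T φ z₀.2) = 1 := by
    have h2 : ∀ x : ZMod 2, x ≠ 0 → x = 1 := by decide
    exact h2 _ hz₁'
  rw [pol_apply] at hz1
  simp only at hz1
  rw [hs.adj, hφ, zero_mul, add_zero] at hz1
  refine gs4 (fun l : Λ => f (l : V × V)) ⟨z₁, hz₁⟩ ⟨z₀, hz₀⟩ fun x => ?_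
  set A : V →ₗ[ZMod 2] V := (∑ u, c u) • LinearMap.id + D.T φ with hA
  have key := sec_diff B D.ω A z.1 z.2 (∑ u, c u • (y u + z.1) + D.T φ z.1 + κ) f (fun l => by
    have f1 : ∑ u, c u • (y u + (z.1 + l.1)) + D.T φ (z.1 + l.1) + κ =
        ∑ u, c u • (y u + z.1) + D.T φ z.1 + κ + A l.1 := by
      rw [hA, LinearMap.add_apply, LinearMap.smul_apply, LinearMap.id_apply, map_add,
        Finset.sum_smul]
      have f2 : ∑ u, c u • (y u + (z.1 + l.1)) =
          ∑ u, c u • (y u + z.1) + ∑ u, c u • l.1 := by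
        rw [← Finset.sum_add_distrib]
        refine Finset.sum_congr rfl fun u _ => ?_
        rw [← smul_add, add_assoc]
      rw [f2]
      abel
    rw [hf, f1]) (x : V × V) z₁ z₀
  simp only [Submodule.coe_add]
  rw [key, hA]
  simp only [LinearMap.add_apply, LinearMap.smul_apply, LinearMap.id_apply, map_add, map_smul,
    smul_eq_mul]
  have g2 := pol_sing hΛ hz₁ hz₀
  rw [pol_apply] at g2
  linear_combination (∑ u, c u) * g2 + hz1

end main

end Pool.Agent.Q269.DX.A87
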