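import Pool.Agent.Q269.DX.JQ.Stm

/-! # Few families whose differences span a small subspace -/

set_option autoImplicit false

namespace Pool.Agent.Q269.DX.A87

open Pool.Agent.Q269.DX.Bs (ze ze_add)

open Finset Module Pool.Agent.Q269.DX.JQ

open scoped Classical

theorem two_mul_card_le {V : Type} [AddCommGroup V] [Module (ZMod 2) V] [Fintype V]
    (Λ : Submodule (ZMod 2) (V × V)) (h : Nat.card Λ < Fintype.card V) :
    2 * Nat.card Λ ≤ Fintype.card V := by
  have h1 : Nat.card Λ = 2 ^ finrank (ZMod 2) Λ := by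
    have := Module.natCard_eq_pow_finrank (K := ZMod 2) (V := Λ)
    rwa [Nat.card_zmod] at this
  have h2 : Fintype.card V = 2 ^ finrank (ZMod 2) V := by
    have := Module.card_eq_pow_finrank (K := ZMod 2) (V := V)
    rwa [ZMod.card] at this
  rw [h1, h2] at h ⊢
  have h3 := (Nat.pow_lt_pow_iff_right (by norm_num)).1 h
  rw [← pow_succ']
  exact Nat.pow_le_pow_right (by norm_num) h3

theorem t_NMAX : S_NMAX := by
  intro V ι _ _ _ _
  set N : Finset (Submodule (ZMod 2) (V × V)) :=
    univ.filter (fun Λ => Nat.card Λ < Fintype.card V) with hN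
  set T : Submodule (ZMod 2) (V × V) → Finset (ι → V × V) := fun Λ =>
    univ.image (fun p : (V × V) × (ι → Λ) => fun i => ((p.2 i : Λ) : V × V) + p.1) with hT
  have h1 : ((univ : Finset (ι → V × V)).filter fun Z => Nat.card (dif Z) < Fintype.card V) ⊆
      N.biUnion T := by
    intro Z hZ
    rw [mem_filter] at hZ
    rw [mem_biUnion]
    refine ⟨dif Z, mem_filter.2 ⟨mem_univ _, hZ.2⟩, ?_⟩
    rw [hT]
    simp only
    rw [mem_image]
    rcases isEmpty_or_nonempty ι with hι | ⟨⟨i₀⟩⟩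
    · exact ⟨(0, fun i => isEmptyElim i), mem_univ _, funext fun i => isEmptyElim i⟩
    · refine ⟨(Z i₀, fun i => ⟨Z i + Z i₀, Submodule.subset_span ⟨(i, i₀), rfl⟩⟩), mem_univ _, ?_⟩
      funext i
      simp only
      have h2 : Z i₀ + Z i₀ = 0 := by
        have h3 : (2 : ZMod 2) • Z i₀ = 0 := by
          rw [show (2 : ZMod 2) = 0 from rfl, zero_smul]
        rwa [two_smul] at h3
      rw [add_assoc, h2, add_zero]
  have h2 : ∀ Λ ∈ N, ((T Λ).card : ℝ) ≤
      (Fintype.card V : ℝ) ^ 2 * ((Fintype.card V : ℝ) / 2) ^ Fintype.card ι := by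
    intro Λ hΛ
    have h3 := two_mul_card_le Λ (mem_filter.1 hΛ).2
    have h4 : (T Λ).card ≤ Fintype.card ((V × V) × (ι → Λ)) := by
      rw [hT]
      exact card_image_le.trans (le_of_eq rfl)
    have h5 : Fintype.card ((V × V) × (ι → Λ)) =
        Fintype.card V ^ 2 * Nat.card Λ ^ Fintype.card ι := by
      rw [Fintype.card_prod, Fintype.card_prod, Fintype.card_fun, Nat.card_eq_fintype_card, sq]
    rw [h5] at h4
    have h6 : (Nat.card Λ : ℝ) ≤ (Fintype.card V : ℝ) / 2 := by
      rw [le_div_iff₀ (by norm_num)]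
      have : ((2 * Nat.card Λ : ℕ) : ℝ) ≤ Fintype.card V := by exact_mod_cast h3
      push_cast at this
      linarith
    calc ((T Λ).card : ℝ) ≤ ((Fintype.card V ^ 2 * Nat.card Λ ^ Fintype.card ι : ℕ) : ℝ) := by
          exact_mod_cast h4
      _ = (Fintype.card V : ℝ) ^ 2 * (Nat.card Λ : ℝ) ^ Fintype.card ι := by push_cast; rfl
      _ ≤ _ := mul_le_mul_of_nonneg_left (pow_le_pow_left₀ (Nat.cast_nonneg _) h6 _) (by positivity)
  have h3 : (((univ : Finset (ι → V × V)).filter fun Z =>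
      Nat.card (dif Z) < Fintype.card V).card : ℝ) ≤ ∑ Λ ∈ N, ((T Λ).card : ℝ) := by
    exact_mod_cast (card_le_card h1).trans card_biUnion_le
  have h4 := Finset.sum_le_card_nsmul _ _ _ h2
  rw [nsmul_eq_mul] at h4
  have h5 : (N.card : ℝ) ≤ (Nat.card (Submodule (ZMod 2) (V × V)) : ℝ) := by
    rw [Nat.card_eq_fintype_card]
    exact_mod_cast Finset.card_le_univ N
  refine h3.trans (h4.trans ?_)
  rw [mul_assoc]
  exact mul_le_mul_of_nonneg_right h5 (by positivity)

end Pool.Agent.Q269.DX.A87
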