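import Pool.Agent.Q269.DX.JQ.Stm

/-! # The contribution of a subspace which is not invariant -/

set_option autoImplicit false

namespace Pool.Agent.Q269.DX.A87

open Pool.Agent.Q269.DX.Bs (ze ze_add)

open Finset Module Pool.Agent.Q269.DX.JQ
open Pool.Agent.Q269.DX.Bs (prs ext)

open scoped Classical

theorem sg_zero : sg 0 = 1 := by
  unfold sg
  rw [if_pos rfl]

theorem sg_add (a b : ZMod 2) : sg (a + b) = sg a * sg b := by
  have h : ∀ x : ZMod 2, x = 0 ∨ x = 1 := by decide
  unfold sg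
  rcases h a with rfl | rfl <;> rcases h b with rfl | rfl <;>
    simp [show (1 : ZMod 2) + 1 = 0 from rfl]

theorem sg_sum {α : Type} (s : Finset α) (f : α → ZMod 2) :
    sg (∑ i ∈ s, f i) = ∏ i ∈ s, sg (f i) := by
  induction s using Finset.induction_on with
  | empty => simp [sg_zero]
  | insert a s ha ih => rw [sum_insert ha, prod_insert ha, sg_add, ih]

theorem abs_sg (a : ZMod 2) : |sg a| = 1 := by
  unfold sg
  split_ifs <;> simp

theorem sg_one : sg 1 = -1 := by
  unfold sg
  rw [if_neg (by decide)]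

/-- sum over the families with some coordinates separated -/
theorem sum_sep {ι L : Type} [Fintype ι] [DecidableEq ι] [Fintype L] (M : Finset ι) (F : (ι → L) → ZMod 2)
    (H : ({i // i ∉ M} → L) → ZMod 2) (g : ι → L → ZMod 2)
    (hF : ∀ l, F l = H (fun i => l i) + ∑ i ∈ M, g i (l i))
    (hg : ∀ i ∈ M, |∑ x, sg (g i x)| ≤ (Fintype.card L : ℝ) / 2) :
    |∑ l, sg (F l)| ≤ (Fintype.card L : ℝ) ^ Fintype.card ι / 2 ^ M.card := by
  have h1 : ∑ l, sg (F l) = ∑ q : ({i // i ∈ M} → L) × ({i // i ∉ M} → L),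
      sg (H q.2) * ∏ i : {i // i ∈ M}, sg (g i (q.1 i)) := by
    refine Fintype.sum_equiv (Equiv.piEquivPiSubtypeProd (fun i => i ∈ M) fun _ => L) _ _ fun l => ?_
    rw [hF, sg_add, sg_sum]
    congr 1
    exact (Finset.prod_coe_sort M (fun i => sg (g i (l i)))).symm
  have h2 : ∑ q : ({i // i ∈ M} → L) × ({i // i ∉ M} → L),
      sg (H q.2) * ∏ i : {i // i ∈ M}, sg (g i (q.1 i)) =
      (∏ i : {i // i ∈ M}, ∑ x, sg (g i x)) * ∑ m : {i // i ∉ M} → L, sg (H m) := by
    rw [Fintype.sum_prod_type]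
    have h3 : ∏ i : {i // i ∈ M}, ∑ x, sg (g i x) =
        ∑ p : {i // i ∈ M} → L, ∏ i : {i // i ∈ M}, sg (g i (p i)) := by
      rw [Finset.prod_univ_sum]
      simp only [Fintype.piFinset_univ]
    rw [h3, Finset.sum_mul_sum]
    refine Finset.sum_congr rfl fun p _ => Finset.sum_congr rfl fun m _ => ?_
    rw [mul_comm]
  rw [h1, h2, abs_mul, Finset.abs_prod]
  have h4 : ∏ i : {i // i ∈ M}, |∑ x, sg (g i x)| ≤ ((Fintype.card L : ℝ) / 2) ^ M.card := by
    calc ∏ i : {i // i ∈ M}, |∑ x, sg (g i x)| ≤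
          ∏ _i : {i // i ∈ M}, ((Fintype.card L : ℝ) / 2) :=
          Finset.prod_le_prod (fun i _ => abs_nonneg _) fun i _ => hg i i.2
      _ = _ := by rw [Finset.prod_const, Finset.card_univ, Fintype.card_coe]
  have h5 : |∑ m : {i // i ∉ M} → L, sg (H m)| ≤ (Fintype.card L : ℝ) ^ (Fintype.card ι - M.card) := by
    refine (Finset.abs_sum_le_sum_abs _ _).trans ?_
    simp only [abs_sg]
    rw [Finset.sum_const, Finset.card_univ, Fintype.card_fun, nsmul_eq_mul, mul_one]
    have h6 : Fintype.card {i // i ∉ M} = Fintype.card ι - M.card := by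
      rw [Fintype.card_subtype_compl, Fintype.card_coe]
    rw [h6]
    push_cast
    exact le_rfl
  have h7 : M.card ≤ Fintype.card ι := Finset.card_le_univ M
  calc (∏ i : {i // i ∈ M}, |∑ x, sg (g i x)|) * |∑ m : {i // i ∉ M} → L, sg (H m)| ≤
        ((Fintype.card L : ℝ) / 2) ^ M.card * (Fintype.card L : ℝ) ^ (Fintype.card ι - M.card) :=
        mul_le_mul h4 h5 (abs_nonneg _) (by positivity)
    _ = (Fintype.card L : ℝ) ^ Fintype.card ι / 2 ^ M.card := by
        rw [div_pow, div_mul_eq_mul_div, ← pow_add, Nat.add_sub_cancel' h7]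

section

variable {V : Type} [AddCommGroup V] [Module (ZMod 2) V]

theorem self_add {M : Type} [AddCommGroup M] [Module (ZMod 2) M] (x : M) : x + x = 0 := by
  have h : (2 : ZMod 2) • x = 0 := by
    rw [show (2 : ZMod 2) = 0 from rfl, zero_smul]
  rwa [two_smul] at h

/-- sum over the families with all differences in a subspace -/
theorem sum_diff {M ι : Type} [AddCommGroup M] [Module (ZMod 2) M] [Fintype M] [Fintype ι]
    [DecidableEq ι] [Nonempty ι] (Λ : Submodule (ZMod 2) M) (F : (ι → M) → ℝ) :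
    (Fintype.card Λ : ℝ) * ∑ Z : ι → M, (if ∀ i j, Z i + Z j ∈ Λ then F Z else 0) =
      ∑ z : M, ∑ l : ι → Λ, F (fun i => z + (l i : M)) := by
  have h1 : ∀ z : M, ∑ l : ι → Λ, F (fun i => z + (l i : M)) =
      ∑ Z : ι → M, if ∀ i, z + Z i ∈ Λ then F Z else 0 := by
    intro z
    rw [← Finset.sum_filter]
    refine Finset.sum_bij (fun (l : ι → Λ) _ => fun i => z + (l i : M)) ?_ ?_ ?_ ?_
    · intro l _
      rw [mem_filter]
      refine ⟨mem_univ _, fun i => ?_⟩
      rw [← add_assoc, self_add, zero_add]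
      exact (l i).2
    · intro l _ l' _ h
      funext i
      have := congrFun h i
      exact Subtype.ext (add_left_cancel this)
    · intro Z hZ
      refine ⟨fun i => ⟨z + Z i, (mem_filter.1 hZ).2 i⟩, mem_univ _, ?_⟩
      funext i
      simp only
      rw [← add_assoc, self_add, zero_add]
    · intro l _
      rfl
  simp_rw [h1]
  rw [Finset.sum_comm, Finset.mul_sum]
  refine Finset.sum_congr rfl fun Z _ => ?_
  obtain ⟨i₀⟩ := ‹Nonempty ι›
  split_ifs with h
  · have h2 : ∀ z : M, (∀ i, z + Z i ∈ Λ) ↔ z + Z i₀ ∈ Λ := by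
      intro z
      refine ⟨fun h3 => h3 i₀, fun h3 i => ?_⟩
      have h4 := Λ.add_mem h3 (h i₀ i)
      have h5 : z + Z i₀ + (Z i₀ + Z i) = z + Z i := by
        rw [add_assoc, ← add_assoc (Z i₀), self_add, zero_add]
      rwa [h5] at h4
    simp_rw [h2]
    rw [← Finset.sum_filter, Finset.sum_const, nsmul_eq_mul]
    congr 1
    norm_cast
    rw [← Finset.card_univ]
    refine Finset.card_bij (fun (l : Λ) _ => (l : M) + Z i₀) ?_ ?_ ?_
    · intro l _
      rw [mem_filter, add_assoc, self_add, add_zero]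
      exact ⟨mem_univ _, l.2⟩
    · intro l _ l' _ h3
      exact Subtype.ext (add_right_cancel h3)
    · intro z hz
      refine ⟨⟨z + Z i₀, (mem_filter.1 hz).2⟩, mem_univ _, ?_⟩
      simp only
      rw [add_assoc, self_add, add_zero]
  · rw [mul_zero]
    symm
    refine Finset.sum_eq_zero fun z _ => ?_
    rw [if_neg]
    intro h3
    refine h fun i j => ?_
    have h4 := Λ.add_mem (h3 i) (h3 j)
    have h5 : z + Z i + (z + Z j) = Z i + Z j := by
      rw [add_comm z (Z i), add_assoc, ← add_assoc z, self_add, zero_add]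
    rwa [h5] at h4

/-- the indicator of a subspace as a mean of characters -/
theorem indic {X : Type} [AddCommGroup X] [Module (ZMod 2) X] [Finite X]
    (E : Submodule (ZMod 2) X) [Fintype E.dualAnnihilator] (e : X) :
    (∑ χ : E.dualAnnihilator, sg ((χ : Dual (ZMod 2) X) e)) =
      if e ∈ E then (Fintype.card E.dualAnnihilator : ℝ) else 0 := by
  split_ifs with h
  · have h1 : ∀ χ : E.dualAnnihilator, sg ((χ : Dual (ZMod 2) X) e) = 1 := by
      intro χ
      rw [(Submodule.mem_dualAnnihilator _).1 χ.2 e h, sg_zero]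
    simp_rw [h1]
    rw [Finset.sum_const, Finset.card_univ, nsmul_eq_mul, mul_one]
  · obtain ⟨f, hf1, hf2⟩ := Submodule.exists_le_ker_of_notMem (p := E) h
    have hf3 : f ∈ E.dualAnnihilator := by
      rw [Submodule.mem_dualAnnihilator]
      intro w hw
      exact LinearMap.mem_ker.1 (hf2 hw)
    have hf4 : f e = 1 := by
      have h2 : ∀ x : ZMod 2, x ≠ 0 → x = 1 := by decide
      exact h2 _ hf1
    have h3 : ∑ χ : E.dualAnnihilator, sg ((χ : Dual (ZMod 2) X) e) =
        ∑ χ : E.dualAnnihilator, -sg ((χ : Dual (ZMod 2) X) e) := by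
      refine Fintype.sum_equiv (Equiv.addRight (⟨f, hf3⟩ : E.dualAnnihilator)) _ _ fun χ => ?_
      simp only [Equiv.coe_addRight, Submodule.coe_add, LinearMap.add_apply]
      rw [hf4, sg_add, sg_one]
      ring
    rw [Finset.sum_neg_distrib] at h3
    linarith

end

end Pool.Agent.Q269.DX.A87
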